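import Mathlib

/-!
# Cores of domains in `ℂ²`: definitions and the basic lemma
-/

set_option autoImplicit false
set_option linter.unusedVariables false

open Set Topology Filter Complex
open scoped ContDiff

namespace Pool.Agent.X170.Core

section Defs

variable {E : Type} [NormedAddCommGroup E] [NormedSpace ℂ E]

/-- The second derivative of `φ` at `z` in the real direction `v`. -/
noncomputable def dd (φ : E → ℝ) (z v : E) : ℝ := iteratedDeriv 2 (fun t : ℝ => φ (z + (t : ℂ) • v)) 0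

/-- The Levi form `Lev(φ)(z, ξ) = ∑ ∂²φ/∂z_j∂z̄_k(z) ξ_j ξ̄_k`, that is, the value at `ζ = 0` of
`∂²/∂ζ∂ζ̄ φ(z + ζ ξ) = (∂²/∂s² + ∂²/∂t²) φ(z + (s + i t) ξ) / 4`. -/
noncomputable def levi (φ : E → ℝ) (z ξ : E) : ℝ := (dd φ z ξ + dd φ z (I • ξ)) / 4

/-- `φ` is a smooth plurisubharmonic function, bounded from above, on the open set `D`. -/
structure IsBddPsh (D : Set E) (φ : E → ℝ) : Prop where
  smooth : ContDiffOn ℝ ∞ φ D
  psh : ∀ z ∈ D, ∀ ξ : E, 0 ≤ levi φ z ξ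
  bddAbove : BddAbove (φ '' D)

/-- The core of the open set `D`: the points of `D` at which no smooth plurisubharmonic function on `D`
that is bounded from above is strictly plurisubharmonic. -/
def core (D : Set E) : Set E := {z | z ∈ D ∧ ¬ ∃ φ, IsBddPsh D φ ∧ ∀ ξ : E, ξ ≠ 0 → 0 < levi φ z ξ}

end Defs

section Calc

variable {E : Type} [NormedAddCommGroup E] [NormedSpace ℂ E]

theorem contDiff_line (z v : E) : ContDiff ℝ ∞ (fun t : ℝ => z + (t : ℂ) • v) := by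
  have h : ContDiff ℝ ∞ (fun t : ℝ => (t : ℂ)) := Complex.ofRealCLM.contDiff
  exact contDiff_const.add (h.smul contDiff_const)

theorem contDiffAt_line {φ : E → ℝ} {z v : E} {n : ℕ} (h : ContDiffAt ℝ n φ z) :
    ContDiffAt ℝ n (fun t : ℝ => φ (z + (t : ℂ) • v)) 0 := by
  have h1 : ContDiffAt ℝ n (fun t : ℝ => z + (t : ℂ) • v) 0 :=
    ((contDiff_line z v).of_le (by exact_mod_cast le_top)).contDiffAt
  refine ContDiffAt.comp (g := φ) 0 ?_ h1
  simpa using h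

theorem dd_add {φ ψ : E → ℝ} {z v : E} (h : ContDiffAt ℝ 2 φ z) (h' : ContDiffAt ℝ 2 ψ z) :
    dd (fun x => φ x + ψ x) z v = dd φ z v + dd ψ z v := by
  unfold dd
  exact iteratedDeriv_fun_add (contDiffAt_line h) (contDiffAt_line h')

theorem dd_congr {φ ψ : E → ℝ} {z v : E} (h : φ =ᶠ[𝓝 z] ψ) : dd φ z v = dd ψ z v := by
  unfold dd
  refine Filter.EventuallyEq.iteratedDeriv_eq 2 ?_
  have h1 : Tendsto (fun t : ℝ => z + (t : ℂ) • v) (𝓝 0) (𝓝 z) := by
    have := (contDiff_line z v).continuous.tendsto 0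
    simpa using this
  exact h1.eventually h

theorem dd_const (c : ℝ) (z v : E) : dd (fun _ => c) z v = 0 := by
  unfold dd
  simp [iteratedDeriv_const]

theorem dd_nonpos_of_isLocalMax {φ : E → ℝ} {z : E} (h : ContDiffAt ℝ 2 φ z) (hm : IsLocalMax φ z)
    (v : E) : dd φ z v ≤ 0 := by
  unfold dd
  by_contra hcon
  push Not at hcon
  set g : ℝ → ℝ := fun t => φ (z + (t : ℂ) • v) with hg
  have hgc : ContDiffAt ℝ 2 g 0 := contDiffAt_line h
  have htend : Tendsto (fun t : ℝ => z + (t : ℂ) • v) (𝓝 0) (𝓝 z) := by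
    have := (contDiff_line z v).continuous.tendsto 0
    simpa using this
  have hgm : IsLocalMax g 0 := by
    have h1 : ∀ᶠ t : ℝ in 𝓝 0, φ (z + (t : ℂ) • v) ≤ φ z := htend.eventually hm
    filter_upwards [h1] with t ht
    simpa [hg] using ht
  have hd0 : deriv g 0 = 0 := hgm.deriv_eq_zero
  have hdd : 0 < deriv (deriv g) 0 := by
    rw [iteratedDeriv_succ, iteratedDeriv_one] at hcon
    exact hcon
  have hmin : IsLocalMin g 0 := isLocalMin_of_deriv_deriv_pos hdd hd0 hgc.continuousAt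
  have hconst : g =ᶠ[𝓝 0] fun _ => g 0 := by
    filter_upwards [hgm, hmin] with t h1 h2
    exact le_antisymm h1 h2
  have h1 : deriv g =ᶠ[𝓝 0] fun _ => 0 := by
    have := hconst.deriv
    filter_upwards [this] with t ht
    rw [ht]; simp
  rw [h1.deriv_eq] at hdd
  simp at hdd

theorem levi_nonpos_of_isLocalMax {φ : E → ℝ} {z : E} (h : ContDiffAt ℝ 2 φ z)
    (hm : IsLocalMax φ z) (ξ : E) : levi φ z ξ ≤ 0 := by
  unfold levi
  have h1 := dd_nonpos_of_isLocalMax h hm ξ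
  have h2 := dd_nonpos_of_isLocalMax h hm (I • ξ)
  linarith

theorem levi_add {φ ψ : E → ℝ} {z : E} (h : ContDiffAt ℝ 2 φ z) (h' : ContDiffAt ℝ 2 ψ z) (ξ : E) :
    levi (fun x => φ x + ψ x) z ξ = levi φ z ξ + levi ψ z ξ := by
  unfold levi
  rw [dd_add h h', dd_add h h']
  ring

theorem levi_const (c : ℝ) (z ξ : E) : levi (fun _ => c) z ξ = 0 := by
  unfold levi
  rw [dd_const, dd_const]
  ring

end Calc

/-- the second derivative of a polynomial -/
theorem iteratedDeriv_two_of {g : ℝ → ℝ} {g' : ℝ → ℝ} {s : ℝ} (h1 : ∀ᶠ t in 𝓝 0, HasDerivAt g (g' t) t)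
    (h2 : HasDerivAt g' s 0) : iteratedDeriv 2 g 0 = s := by
  rw [iteratedDeriv_succ, iteratedDeriv_one]
  have h3 : deriv g =ᶠ[𝓝 0] g' := by
    filter_upwards [h1] with t ht
    exact ht.deriv
  rw [h3.deriv_eq]
  exact h2.deriv

theorem two_le : (2 : WithTop ℕ∞) ≤ ∞ := by
  have h : ((2 : ℕ∞) : WithTop ℕ∞) ≤ ((⊤ : ℕ∞) : WithTop ℕ∞) := WithTop.coe_le_coe.2 le_top
  exact h

theorem hasDerivAt_lin (a b t : ℝ) : HasDerivAt (fun t : ℝ => a + t * b) b t := by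
  simpa using ((hasDerivAt_id t).mul_const b).const_add a

theorem hasDerivAt_q (a b c d t : ℝ) : HasDerivAt (fun t : ℝ => (a + t * b) ^ 2 + (c + t * d) ^ 2)
    (2 * (a + t * b) * b + 2 * (c + t * d) * d) t := by
  have := ((hasDerivAt_lin a b t).fun_pow 2).fun_add ((hasDerivAt_lin c d t).fun_pow 2)
  refine this.congr_deriv ?_
  push_cast
  ring

theorem hasDerivAt_q' (a b c d t : ℝ) : HasDerivAt
    (fun t : ℝ => 2 * (a + t * b) * b + 2 * (c + t * d) * d) (2 * b ^ 2 + 2 * d ^ 2) t := by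
  have := (((hasDerivAt_lin a b t).const_mul 2).mul_const b).fun_add
    (((hasDerivAt_lin c d t).const_mul 2).mul_const d)
  refine this.congr_deriv ?_
  ring

theorem dd_sq (z v : ℂ) : dd (fun x : ℂ => ‖x‖ ^ 2) z v = 2 * ‖v‖ ^ 2 := by
  unfold dd
  have e : (fun t : ℝ => ‖z + (t : ℂ) • v‖ ^ 2) = fun t : ℝ =>
      (z.re + t * v.re) ^ 2 + (z.im + t * v.im) ^ 2 := by
    funext t
    rw [← Complex.normSq_eq_norm_sq, Complex.normSq_apply]
    simp
    ring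
  rw [e]
  refine iteratedDeriv_two_of (g' := fun t => 2 * (z.re + t * v.re) * v.re +
    2 * (z.im + t * v.im) * v.im) (Eventually.of_forall fun t => ?_) ?_
  · exact hasDerivAt_q _ _ _ _ _
  · refine (hasDerivAt_q' _ _ _ _ _).congr_deriv ?_
    rw [← Complex.normSq_eq_norm_sq, Complex.normSq_apply]
    ring

theorem levi_sq (z : ℂ) : levi (fun x : ℂ => ‖x‖ ^ 2) z 1 = 1 := by
  unfold levi
  rw [dd_sq, dd_sq]
  simp
  norm_num

theorem contDiff_sq : ContDiff ℝ ∞ (fun x : ℂ => ‖x‖ ^ 2) := contDiff_norm_sq ℝ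

/-- weak maximum principle -/
theorem weak_max {K : Set ℂ} (hK : IsCompact K) {f : ℂ → ℝ} (hf : ContinuousOn f K)
    (hf2 : ∀ z ∈ interior K, ContDiffAt ℝ 2 f z ∧ 0 ≤ levi f z 1) {C : ℝ}
    (hC : ∀ z ∈ K, z ∉ interior K → f z ≤ C) : ∀ z ∈ K, f z ≤ C := by
  intro z hz
  obtain ⟨B, hB⟩ := hK.isBounded.exists_norm_le
  have key : ∀ ε : ℝ, 0 < ε → f z ≤ C + ε * B ^ 2 := by
    intro ε hε
    set g : ℂ → ℝ := fun x => f x + ε * ‖x‖ ^ 2 with hg
    have hgc : ContinuousOn g K := hf.add (by fun_prop)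
    obtain ⟨w, hw, hmax⟩ := hK.exists_isMaxOn ⟨z, hz⟩ hgc
    have h1 : f z ≤ g w := by
      have h2 : g z ≤ g w := hmax hz
      have h3 : 0 ≤ ε * ‖z‖ ^ 2 := by positivity
      simp only [hg] at h2 ⊢
      linarith
    by_cases hwi : w ∈ interior K
    · exfalso
      have hloc : IsLocalMax g w := hmax.isLocalMax (mem_interior_iff_mem_nhds.1 hwi)
      obtain ⟨hs, hl⟩ := hf2 w hwi
      have hq : ContDiffAt ℝ 2 (fun x : ℂ => ε * ‖x‖ ^ 2) w :=
        contDiffAt_const.mul ((contDiff_sq.of_le two_le).contDiffAt)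
      have h2 := levi_nonpos_of_isLocalMax (hs.add hq) hloc 1
      have h3 : levi g w 1 = levi f w 1 + levi (fun x : ℂ => ε * ‖x‖ ^ 2) w 1 := levi_add hs hq 1
      have h4 : levi (fun x : ℂ => ε * ‖x‖ ^ 2) w 1 = ε := by
        have h5 : ∀ v, dd (fun x : ℂ => ε * ‖x‖ ^ 2) w v = ε * dd (fun x : ℂ => ‖x‖ ^ 2) w v := by
          intro v
          unfold dd
          exact iteratedDeriv_const_mul_field ε _
        have h6 := levi_sq w
        unfold levi at h6 ⊢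
        rw [h5, h5, ← mul_add, mul_div_assoc, h6, mul_one]
      have h7 : levi g w 1 ≤ 0 := h2
      rw [h3, h4] at h7
      linarith
    · have h2 := hC w hw hwi
      have h3 : ‖w‖ ^ 2 ≤ B ^ 2 := pow_le_pow_left₀ (norm_nonneg _) (hB w hw) 2
      have h4 : ε * ‖w‖ ^ 2 ≤ ε * B ^ 2 := mul_le_mul_of_nonneg_left h3 hε.le
      simp only [hg] at h1
      linarith
  have h5 : Tendsto (fun ε : ℝ => C + ε * B ^ 2) (𝓝[>] 0) (𝓝 C) := by
    have : Continuous fun ε : ℝ => C + ε * B ^ 2 := by fun_prop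
    have := (this.tendsto 0).mono_left (nhdsWithin_le_nhds (s := Ioi 0))
    simpa using this
  exact ge_of_tendsto h5 (by filter_upwards [self_mem_nhdsWithin] with ε hε using key ε hε)

/-! ### The logarithm -/

theorem dd_log {a v : ℂ} (ha : a ≠ 0) : dd (fun x : ℂ => Real.log ‖x‖) a v =
    (‖v‖ ^ 2 * ‖a‖ ^ 2 - 2 * (a.re * v.re + a.im * v.im) ^ 2) / (‖a‖ ^ 2) ^ 2 := by
  unfold dd
  set q : ℝ → ℝ := fun t => (a.re + t * v.re) ^ 2 + (a.im + t * v.im) ^ 2 with hq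
  have e : (fun t : ℝ => Real.log ‖a + (t : ℂ) • v‖) = fun t : ℝ => (1 / 2) * Real.log (q t) := by
    funext t
    have h1 : q t = ‖a + (t : ℂ) • v‖ ^ 2 := by
      rw [← Complex.normSq_eq_norm_sq, Complex.normSq_apply]
      simp [hq]
      ring
    rw [h1, Real.log_pow]
    push_cast
    ring
  have hna : ‖a‖ ^ 2 = a.re ^ 2 + a.im ^ 2 := by
    rw [← Complex.normSq_eq_norm_sq, Complex.normSq_apply]; ring
  have hnv : ‖v‖ ^ 2 = v.re ^ 2 + v.im ^ 2 := by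
    rw [← Complex.normSq_eq_norm_sq, Complex.normSq_apply]; ring
  have hq0 : q 0 = ‖a‖ ^ 2 := by rw [hna]; simp [hq]
  have hq0' : 0 < q 0 := by
    rw [hq0]
    have := norm_pos_iff.2 ha
    positivity
  have hqc : Continuous q := by rw [hq]; fun_prop
  have hqev : ∀ᶠ t in 𝓝 (0 : ℝ), 0 < q t := hqc.continuousAt.eventually (lt_mem_nhds hq0')
  have hqd : ∀ t, HasDerivAt q (2 * (a.re + t * v.re) * v.re + 2 * (a.im + t * v.im) * v.im) t := by
    intro t
    exact hasDerivAt_q _ _ _ _ _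
  rw [e]
  refine iteratedDeriv_two_of (g' := fun t => (1 / 2) *
    ((2 * (a.re + t * v.re) * v.re + 2 * (a.im + t * v.im) * v.im) / q t)) ?_ ?_
  · filter_upwards [hqev] with t ht
    exact ((hqd t).log ht.ne').const_mul (1 / 2)
  · have h1 := hasDerivAt_q' a.re v.re a.im v.im 0
    have h2 := (h1.div (hqd 0) hq0'.ne').const_mul (1 / 2)
    refine h2.congr_deriv ?_
    rw [hq0, hna, hnv]
    have h3 : a.re ^ 2 + a.im ^ 2 ≠ 0 := by rw [← hna, ← hq0]; exact hq0'.ne'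
    simp only [zero_mul, add_zero]
    field_simp

theorem levi_log {a : ℂ} (ha : a ≠ 0) : levi (fun x : ℂ => Real.log ‖x‖) a 1 = 0 := by
  unfold levi
  rw [dd_log ha, dd_log ha]
  have hna : ‖a‖ ^ 2 = a.re ^ 2 + a.im ^ 2 := by
    rw [← Complex.normSq_eq_norm_sq, Complex.normSq_apply]; ring
  have : ‖a‖ ^ 2 ≠ 0 := pow_ne_zero 2 (norm_ne_zero_iff.2 ha)
  simp
  rw [hna] at this ⊢
  field_simp
  ring

theorem contDiffAt_log {a : ℂ} (ha : a ≠ 0) : ContDiffAt ℝ 2 (fun x : ℂ => Real.log ‖x‖) a := by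
  exact (contDiffAt_norm ℝ ha).log (norm_ne_zero_iff.2 ha)

/-- The two-radius estimate: a function subharmonic on an annulus is bounded by the harmonic function
`m + κ log (|z - z₀| / ρ)`. -/
theorem annulus {u : ℂ → ℝ} {z₀ : ℂ} {ρ R m M : ℝ} (hρ : 0 < ρ) (hρR : ρ < R)
    (hu : ∀ z, ρ ≤ ‖z - z₀‖ → ‖z - z₀‖ ≤ R → ContDiffAt ℝ 2 u z ∧ 0 ≤ levi u z 1)
    (hm : ∀ z, ‖z - z₀‖ = ρ → u z ≤ m) (hM : ∀ z, ‖z - z₀‖ = R → u z ≤ M) {z : ℂ}
    (h1 : ρ ≤ ‖z - z₀‖) (h2 : ‖z - z₀‖ ≤ R) :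
    u z ≤ m + (M - m) * (Real.log (‖z - z₀‖ / ρ) / Real.log (R / ρ)) := by
  set κ : ℝ := (M - m) / Real.log (R / ρ) with hκ
  have hlog : 0 < Real.log (R / ρ) := Real.log_pos ((one_lt_div hρ).2 hρR)
  set K : Set ℂ := {z | ρ ≤ ‖z - z₀‖ ∧ ‖z - z₀‖ ≤ R} with hKdef
  have hcn : Continuous fun z : ℂ => ‖z - z₀‖ := by fun_prop
  have hKc : IsCompact K := by
    refine Metric.isCompact_of_isClosed_isBounded ?_ ?_
    · exact (isClosed_le continuous_const hcn).inter (isClosed_le hcn continuous_const)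
    · refine Metric.isBounded_closedBall.subset (s := K) (t := Metric.closedBall z₀ R) fun z hz => ?_
      rw [mem_closedBall_iff_norm]
      exact hz.2
  have hKi : ∀ z ∈ K, z ∉ interior K → ‖z - z₀‖ = ρ ∨ ‖z - z₀‖ = R := by
    intro z hz hzi
    by_contra hcon
    push Not at hcon
    apply hzi
    have h3 : {z : ℂ | ρ < ‖z - z₀‖ ∧ ‖z - z₀‖ < R} ⊆ interior K :=
      interior_maximal (fun z hz => ⟨hz.1.le, hz.2.le⟩)
        ((isOpen_lt continuous_const hcn).inter (isOpen_lt hcn continuous_const))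
    exact h3 ⟨lt_of_le_of_ne hz.1 (Ne.symm hcon.1), lt_of_le_of_ne hz.2 hcon.2⟩
  set L : ℂ → ℝ := fun z => -κ * Real.log ‖z - z₀‖ with hL
  have hLs : ∀ z, ρ ≤ ‖z - z₀‖ → ContDiffAt ℝ 2 L z ∧ levi L z 1 = 0 := by
    intro z hz
    have hne : z - z₀ ≠ 0 := by
      rw [← norm_pos_iff]; linarith
    have h3 : ContDiffAt ℝ 2 (fun z : ℂ => Real.log ‖z - z₀‖) z := by
      have h4 : ContDiffAt ℝ 2 (fun z : ℂ => z - z₀) z := contDiffAt_id.sub contDiffAt_const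
      exact ContDiffAt.comp (g := fun x : ℂ => Real.log ‖x‖) z (contDiffAt_log hne) h4
    refine ⟨contDiffAt_const.mul h3, ?_⟩
    have h5 : ∀ v, dd L z v = -κ * dd (fun x : ℂ => Real.log ‖x‖) (z - z₀) v := by
      intro v
      unfold dd
      rw [hL]
      have e : (fun t : ℝ => -κ * Real.log ‖z + (t : ℂ) • v - z₀‖) =
          fun t : ℝ => -κ * Real.log ‖z - z₀ + (t : ℂ) • v‖ := by
        funext t
        congr 3
        ring
      simp only [e]
      exact iteratedDeriv_const_mul_field _ _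
    have h6 := levi_log hne
    unfold levi at h6 ⊢
    rw [h5, h5, ← mul_add, mul_div_assoc, h6, mul_zero]
  have hmain : ∀ z ∈ K, u z + L z ≤ m - κ * Real.log ρ := by
    refine weak_max hKc (f := fun z => u z + L z) ?_ ?_ ?_
    · intro z hz
      exact ((hu z hz.1 hz.2).1.continuousAt.add (hLs z hz.1).1.continuousAt).continuousWithinAt
    · intro z hz
      have hz' := interior_subset hz
      refine ⟨(hu z hz'.1 hz'.2).1.add (hLs z hz'.1).1, ?_⟩
      rw [levi_add (hu z hz'.1 hz'.2).1 (hLs z hz'.1).1, (hLs z hz'.1).2, add_zero]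
      exact (hu z hz'.1 hz'.2).2
    · intro z hz hzi
      simp only [hL]
      rcases hKi z hz hzi with h | h
      · have := hm z h
        rw [h]
        linarith
      · have h3 := hM z h
        rw [h]
        have h4 : κ * Real.log R - κ * Real.log ρ = M - m := by
          rw [← mul_sub, ← Real.log_div (by linarith) hρ.ne', hκ]
          field_simp
        linarith
  have h3 := hmain z ⟨h1, h2⟩
  simp only [hL] at h3
  have h4 : (M - m) * (Real.log (‖z - z₀‖ / ρ) / Real.log (R / ρ)) =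
      κ * Real.log ‖z - z₀‖ - κ * Real.log ρ := by
    rw [← mul_sub, ← Real.log_div (by linarith) hρ.ne', hκ]
    ring
  rw [h4]
  linarith

/-- restriction to horizontal lines -/
theorem levi_slice {φ : ℂ × ℂ → ℝ} (z c : ℂ) :
    levi (fun z : ℂ => φ (z, c)) z 1 = levi φ (z, c) (1, 0) := by
  unfold levi dd
  simp

/-- **Basic lemma.** Let `φ` be smooth plurisubharmonic and bounded above on the open set `Ω ⊆ ℂ²`.
If `Ω` contains the closed disc `{|z - z₀| ≤ r} × {c₀}` and arbitrarily large closed discs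
`{|z - z₀| ≤ R} × {c}` with `c` arbitrarily close to `c₀`, then `φ(z, c₀) ≤ φ(z₀, c₀)` on the
disc. -/
theorem basic {Ω : Set (ℂ × ℂ)} (hΩ : IsOpen Ω) {φ : ℂ × ℂ → ℝ} (hφ : IsBddPsh Ω φ) {z₀ c₀ : ℂ} {r : ℝ}
    (hr : ∀ z, ‖z - z₀‖ ≤ r → (z, c₀) ∈ Ω)
    (hbig : ∀ R δ : ℝ, 0 < δ → ∃ c, ‖c - c₀‖ < δ ∧ ∀ z, ‖z - z₀‖ ≤ R → (z, c) ∈ Ω)
    {z : ℂ} (hz : ‖z - z₀‖ ≤ r) : φ (z, c₀) ≤ φ (z₀, c₀) := by
  have hcd : ∀ p ∈ Ω, ContDiffAt ℝ 2 φ p := fun p hp =>
    ((hφ.smooth p hp).contDiffAt (hΩ.mem_nhds hp)).of_le two_le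
  obtain ⟨M, hM⟩ := hφ.bddAbove
  have hM' : ∀ p ∈ Ω, φ p ≤ M := fun p hp => hM (mem_image_of_mem _ hp)
  rcases eq_or_ne z z₀ with rfl | hne
  · exact le_refl _
  have hpos : 0 < ‖z - z₀‖ := norm_pos_iff.2 (sub_ne_zero.2 hne)
  have hr0 : 0 < r := hpos.trans_le hz
  apply le_of_forall_pos_le_add
  intro η hη
  -- the continuity at `(z₀, c₀)`
  have h0 : (z₀, c₀) ∈ Ω := hr z₀ (by simpa using hr0.le)
  have hcont : ∀ᶠ p : ℂ × ℂ in 𝓝 (z₀, c₀), φ p < φ (z₀, c₀) + η / 2 :=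
    (hcd _ h0).continuousAt.eventually (gt_mem_nhds (by linarith))
  obtain ⟨δ, hδ, hδ'⟩ := Metric.eventually_nhds_iff.1 hcont
  set ρ : ℝ := min (δ / 2) (‖z - z₀‖ / 2) with hρ
  have hρ0 : 0 < ρ := lt_min (by linarith) (by linarith)
  have hρz : ρ < ‖z - z₀‖ := lt_of_le_of_lt (min_le_right _ _) (by linarith)
  have hρδ : ρ < δ := lt_of_le_of_lt (min_le_left _ _) (by linarith)
  -- the continuity at `(z, c₀)`
  have hcont2 : ∀ᶠ c : ℂ in 𝓝 c₀, φ (z, c₀) - η / 4 < φ (z, c) := by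
    have h1 : ContinuousAt (fun c : ℂ => φ (z, c)) c₀ :=
      ContinuousAt.comp (g := φ) (f := fun c : ℂ => (z, c)) (hcd _ (hr z hz)).continuousAt
        (by fun_prop)
    exact h1.eventually (lt_mem_nhds (by linarith))
  obtain ⟨δ₂, hδ₂, hδ₂'⟩ := Metric.eventually_nhds_iff.1 hcont2
  set m : ℝ := φ (z₀, c₀) + η / 2 with hm
  -- a large radius
  have hlim : Tendsto (fun R : ℝ => m + (|M| + |m| + 1) * (Real.log (‖z - z₀‖ / ρ) / Real.log (R / ρ)))
      atTop (𝓝 (m + (|M| + |m| + 1) * 0)) := by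
    refine tendsto_const_nhds.add (tendsto_const_nhds.mul ?_)
    refine Tendsto.div_atTop tendsto_const_nhds ?_
    exact Real.tendsto_log_atTop.comp (tendsto_id.atTop_div_const hρ0)
  rw [mul_zero, add_zero] at hlim
  obtain ⟨R, hR1, hR2⟩ := ((hlim.eventually (gt_mem_nhds (by linarith : m < m + η / 4))).and
    (eventually_gt_atTop (‖z - z₀‖))).exists
  obtain ⟨c, hc, hcR⟩ := hbig R (min δ δ₂) (lt_min hδ hδ₂)
  have hcδ : ‖c - c₀‖ < δ := hc.trans_le (min_le_left _ _)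
  have hcδ₂ : ‖c - c₀‖ < δ₂ := hc.trans_le (min_le_right _ _)
  have hρR : ρ < R := hρz.trans hR2
  have key := annulus (u := fun z => φ (z, c)) (z₀ := z₀) (m := m) (M := |M| + |m| + 1 + m) hρ0 hρR
    (fun y _ hy2 => ?_) (fun y hy => ?_) (fun y hy => ?_) hρz.le hR2.le
  · have h3 : |M| + |m| + 1 + m - m = |M| + |m| + 1 := by ring
    rw [h3] at key
    have h4 := hδ₂' (y := c) (by rwa [dist_eq_norm])
    linarith
  · have h3 : ContDiffAt ℝ 2 (fun y : ℂ => (y, c)) y := by fun_prop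
    refine ⟨ContDiffAt.comp (g := φ) y (hcd _ (hcR y hy2)) h3, ?_⟩
    rw [levi_slice]
    exact hφ.psh _ (hcR y hy2) _
  · refine (hδ' ?_).le
    rw [Prod.dist_eq, max_lt_iff]
    exact ⟨by rw [dist_eq_norm]; show ‖y - z₀‖ < δ; rw [hy]; exact hρδ, by rwa [dist_eq_norm]⟩
  · have h3 := hM' _ (hcR y hy.le)
    have h4 := le_abs_self M
    have h5 := neg_abs_le m
    show φ (y, c) ≤ _
    linarith

/-- Under the hypotheses of the basic lemma, with `r > 0`, the Levi form of `φ` at `(z₀, c₀)` is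
degenerate. -/
theorem basic_levi {Ω : Set (ℂ × ℂ)} (hΩ : IsOpen Ω) {φ : ℂ × ℂ → ℝ} (hφ : IsBddPsh Ω φ) {z₀ c₀ : ℂ}
    (h0 : (z₀, c₀) ∈ Ω)
    (hbig : ∀ R δ : ℝ, 0 < δ → ∃ c, ‖c - c₀‖ < δ ∧ ∀ z, ‖z - z₀‖ ≤ R → (z, c) ∈ Ω) :
    levi φ (z₀, c₀) (1, 0) ≤ 0 := by
  obtain ⟨r, hr, hr'⟩ : ∃ r > 0, ∀ z, ‖z - z₀‖ ≤ r → (z, c₀) ∈ Ω := by
    obtain ⟨r, hr, hr'⟩ := Metric.isOpen_iff.1 hΩ _ h0
    refine ⟨r / 2, by positivity, fun z hz => hr' ?_⟩
    rw [Metric.mem_ball, Prod.dist_eq, dist_self, max_eq_left dist_nonneg, dist_eq_norm]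
    linarith
  rw [← levi_slice]
  have hcd : ContDiffAt ℝ 2 φ (z₀, c₀) :=
    ((hφ.smooth _ h0).contDiffAt (hΩ.mem_nhds h0)).of_le two_le
  refine levi_nonpos_of_isLocalMax ?_ ?_ 1
  · have h3 : ContDiffAt ℝ 2 (fun y : ℂ => (y, c₀)) z₀ := by fun_prop
    exact ContDiffAt.comp (g := φ) z₀ hcd h3
  · have h4 : ∀ᶠ z : ℂ in 𝓝 z₀, ‖z - z₀‖ ≤ r := by
      filter_upwards [Metric.closedBall_mem_nhds z₀ hr] with z hz
      rwa [mem_closedBall_iff_norm] at hz
    filter_upwards [h4] with z hz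
    exact basic hΩ hφ hr' hbig hz

end Pool.Agent.X170.Core
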