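import Pool.Agent.X170.Core.Basic

/-!
# Levi forms of some explicit functions on `ℂ²`
-/

set_option autoImplicit false
set_option linter.unusedVariables false

open Set Topology Filter Complex
open scoped ContDiff

namespace Pool.Agent.X170.Core

theorem norm_line (z v : ℂ) (t : ℝ) : ‖z + (t : ℂ) • v‖ ^ 2 =
    (z.re + t * v.re) ^ 2 + (z.im + t * v.im) ^ 2 := by
  rw [← Complex.normSq_eq_norm_sq, Complex.normSq_apply]
  simp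
  ring

theorem nsq (z : ℂ) : ‖z‖ ^ 2 = z.re ^ 2 + z.im ^ 2 := by
  rw [← Complex.normSq_eq_norm_sq, Complex.normSq_apply]; ring

/-- the function `|w|² (1 + |z|²)` -/
theorem dd_prod (p v : ℂ × ℂ) : dd (fun p : ℂ × ℂ => ‖p.2‖ ^ 2 * (1 + ‖p.1‖ ^ 2)) p v =
    2 * ‖v.2‖ ^ 2 * (1 + ‖p.1‖ ^ 2) + 8 * (p.2.re * v.2.re + p.2.im * v.2.im) *
      (p.1.re * v.1.re + p.1.im * v.1.im) + 2 * ‖p.2‖ ^ 2 * ‖v.1‖ ^ 2 := by
  unfold dd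
  have e : (fun t : ℝ => ‖(p + (t : ℂ) • v).2‖ ^ 2 * (1 + ‖(p + (t : ℂ) • v).1‖ ^ 2)) = fun t : ℝ =>
      ((p.2.re + t * v.2.re) ^ 2 + (p.2.im + t * v.2.im) ^ 2) *
        (1 + ((p.1.re + t * v.1.re) ^ 2 + (p.1.im + t * v.1.im) ^ 2)) := by
    funext t
    rw [← norm_line, ← norm_line]
    rfl
  rw [e]
  refine iteratedDeriv_two_of (g' := fun t =>
    (2 * (p.2.re + t * v.2.re) * v.2.re + 2 * (p.2.im + t * v.2.im) * v.2.im) *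
      (1 + ((p.1.re + t * v.1.re) ^ 2 + (p.1.im + t * v.1.im) ^ 2)) +
    ((p.2.re + t * v.2.re) ^ 2 + (p.2.im + t * v.2.im) ^ 2) *
      (2 * (p.1.re + t * v.1.re) * v.1.re + 2 * (p.1.im + t * v.1.im) * v.1.im))
    (Eventually.of_forall fun t => ?_) ?_
  · exact (hasDerivAt_q _ _ _ _ t).mul ((hasDerivAt_q _ _ _ _ t).const_add 1)
  · have h1 := (hasDerivAt_q' p.2.re v.2.re p.2.im v.2.im 0).mul
      ((hasDerivAt_q p.1.re v.1.re p.1.im v.1.im 0).const_add 1)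
    have h2 := (hasDerivAt_q p.2.re v.2.re p.2.im v.2.im 0).mul
      (hasDerivAt_q' p.1.re v.1.re p.1.im v.1.im 0)
    refine (h1.add h2).congr_deriv ?_
    rw [nsq, nsq, nsq, nsq]
    simp only [zero_mul, add_zero]
    ring

theorem levi_prod (p v : ℂ × ℂ) : levi (fun p : ℂ × ℂ => ‖p.2‖ ^ 2 * (1 + ‖p.1‖ ^ 2)) p v =
    ‖v.2‖ ^ 2 + ‖p.2 * v.1 + p.1 * v.2‖ ^ 2 := by
  unfold levi
  rw [dd_prod, dd_prod]
  simp only [nsq, Prod.smul_fst, Prod.smul_snd, smul_eq_mul, mul_re, mul_im, I_re, I_im, add_re,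
    add_im]
  ring

theorem contDiff_prod : ContDiff ℝ ∞ (fun p : ℂ × ℂ => ‖p.2‖ ^ 2 * (1 + ‖p.1‖ ^ 2)) :=
  (contDiff_sq.comp contDiff_snd).mul (contDiff_const.add (contDiff_sq.comp contDiff_fst))

/-- the function `|z|² + |w|²` -/
theorem dd_sum (p v : ℂ × ℂ) : dd (fun p : ℂ × ℂ => ‖p.1‖ ^ 2 + ‖p.2‖ ^ 2) p v =
    2 * ‖v.1‖ ^ 2 + 2 * ‖v.2‖ ^ 2 := by
  unfold dd
  have e : (fun t : ℝ => ‖(p + (t : ℂ) • v).1‖ ^ 2 + ‖(p + (t : ℂ) • v).2‖ ^ 2) = fun t : ℝ =>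
      ((p.1.re + t * v.1.re) ^ 2 + (p.1.im + t * v.1.im) ^ 2) +
        ((p.2.re + t * v.2.re) ^ 2 + (p.2.im + t * v.2.im) ^ 2) := by
    funext t
    rw [← norm_line, ← norm_line]
    rfl
  rw [e]
  refine iteratedDeriv_two_of (g' := fun t =>
    (2 * (p.1.re + t * v.1.re) * v.1.re + 2 * (p.1.im + t * v.1.im) * v.1.im) +
    (2 * (p.2.re + t * v.2.re) * v.2.re + 2 * (p.2.im + t * v.2.im) * v.2.im))
    (Eventually.of_forall fun t => ?_) ?_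
  · exact (hasDerivAt_q _ _ _ _ t).add (hasDerivAt_q _ _ _ _ t)
  · refine ((hasDerivAt_q' p.1.re v.1.re p.1.im v.1.im 0).add
      (hasDerivAt_q' p.2.re v.2.re p.2.im v.2.im 0)).congr_deriv ?_
    rw [nsq, nsq]
    ring

theorem levi_sum (p v : ℂ × ℂ) : levi (fun p : ℂ × ℂ => ‖p.1‖ ^ 2 + ‖p.2‖ ^ 2) p v =
    ‖v.1‖ ^ 2 + ‖v.2‖ ^ 2 := by
  unfold levi
  rw [dd_sum, dd_sum]
  simp only [Prod.smul_fst, Prod.smul_snd, smul_eq_mul, norm_mul, norm_I, one_mul]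
  ring

theorem contDiff_sum : ContDiff ℝ ∞ (fun p : ℂ × ℂ => ‖p.1‖ ^ 2 + ‖p.2‖ ^ 2) :=
  (contDiff_sq.comp contDiff_fst).add (contDiff_sq.comp contDiff_snd)

/-- the function `|w|²` -/
theorem dd_snd (p v : ℂ × ℂ) : dd (fun p : ℂ × ℂ => ‖p.2‖ ^ 2) p v = 2 * ‖v.2‖ ^ 2 := by
  have h : dd (fun p : ℂ × ℂ => ‖p.2‖ ^ 2) p v = dd (fun x : ℂ => ‖x‖ ^ 2) p.2 v.2 := rfl
  rw [h, dd_sq]

theorem levi_snd (p v : ℂ × ℂ) : levi (fun p : ℂ × ℂ => ‖p.2‖ ^ 2) p v = ‖v.2‖ ^ 2 := by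
  unfold levi
  rw [dd_snd, dd_snd]
  simp only [Prod.smul_snd, smul_eq_mul, norm_mul, norm_I, one_mul]
  ring

/-- A set whose points `(z, w)` can be joined to `(0, w)` and then to `(0, 0)`. -/
theorem isConnected_of {S : Set (ℂ × ℂ)} (h0 : ((0 : ℂ), (0 : ℂ)) ∈ S)
    (h1 : ∀ p ∈ S, ∀ t : ℝ, 0 ≤ t → t ≤ 1 → ((t : ℂ) * p.1, p.2) ∈ S)
    (h2 : ∀ p ∈ S, ∀ t : ℝ, 0 ≤ t → t ≤ 1 → ((0 : ℂ), (t : ℂ) * p.2) ∈ S) : IsConnected S := by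
  refine ⟨⟨_, h0⟩, isPreconnected_of_forall ((0 : ℂ), (0 : ℂ)) fun p hp => ?_⟩
  refine ⟨(fun t : ℝ => ((t : ℂ) * p.1, p.2)) '' Icc 0 1 ∪
    (fun t : ℝ => ((0 : ℂ), (t : ℂ) * p.2)) '' Icc 0 1, ?_, ?_, ?_, ?_⟩
  · rintro _ (⟨t, ht, rfl⟩ | ⟨t, ht, rfl⟩)
    · exact h1 p hp t ht.1 ht.2
    · exact h2 p hp t ht.1 ht.2
  · exact Or.inr ⟨0, ⟨le_refl _, zero_le_one⟩, by simp⟩
  · exact Or.inl ⟨1, ⟨zero_le_one, le_refl _⟩, by simp⟩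
  · refine IsPreconnected.union ((0 : ℂ), p.2) ⟨0, ⟨le_refl _, zero_le_one⟩, by simp⟩
      ⟨1, ⟨zero_le_one, le_refl _⟩, by simp⟩ ?_ ?_
    · refine isPreconnected_Icc.image _ (Continuous.continuousOn ?_)
      exact (Complex.continuous_ofReal.mul continuous_const).prodMk continuous_const
    · refine isPreconnected_Icc.image _ (Continuous.continuousOn ?_)
      exact continuous_const.prodMk (Complex.continuous_ofReal.mul continuous_const)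

end Pool.Agent.X170.Core
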