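import Pool.Agent.X170.Core.Calc

/-!
# The Levi form and holomorphic maps
-/

set_option autoImplicit false
set_option linter.unusedVariables false

open Set Topology Filter Complex
open scoped ContDiff

namespace Pool.Agent.X170.Core

variable {E : Type} [NormedAddCommGroup E] [NormedSpace ℂ E]

theorem second_deriv_comp {f : E → ℝ} {c c' : ℝ → E} {b : E} (hf : ContDiffAt ℝ 2 f (c 0))
    (hc : ∀ᶠ t in 𝓝 0, HasDerivAt c (c' t) t) (hc' : HasDerivAt c' b 0) :
    iteratedDeriv 2 (fun t => f (c t)) 0 =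
      fderiv ℝ (fderiv ℝ f) (c 0) (c' 0) (c' 0) + fderiv ℝ f (c 0) b := by
  have hc0 : HasDerivAt c (c' 0) 0 := hc.self_of_nhds
  have hcc : Tendsto c (𝓝 0) (𝓝 (c 0)) := hc0.continuousAt
  have hfd : ∀ᶠ y in 𝓝 (c 0), DifferentiableAt ℝ f y := by
    have h1 := hf.eventually (by simp)
    filter_upwards [h1] with y hy
    exact hy.differentiableAt (by norm_num)
  have hf' : DifferentiableAt ℝ (fderiv ℝ f) (c 0) :=
    (hf.fderiv_right (m := 1) (by norm_num)).differentiableAt (by norm_num)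
  refine iteratedDeriv_two_of (g' := fun t => fderiv ℝ f (c t) (c' t)) ?_ ?_
  · filter_upwards [hc, hcc.eventually hfd] with t h1 h2
    exact h2.hasFDerivAt.comp_hasDerivAt t h1
  · have h1 : HasDerivAt (fun t => fderiv ℝ f (c t)) (fderiv ℝ (fderiv ℝ f) (c 0) (c' 0)) 0 :=
      hf'.hasFDerivAt.comp_hasDerivAt (0 : ℝ) hc0
    exact h1.clm_apply hc'

/-- The Levi form through the real Hessian. -/
theorem levi_eq_hessian {f : E → ℝ} {z : E} (hf : ContDiffAt ℝ 2 f z) (ξ : E) :
    levi f z ξ = (fderiv ℝ (fderiv ℝ f) z ξ ξ + fderiv ℝ (fderiv ℝ f) z (I • ξ) (I • ξ)) / 4 := by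
  have h : ∀ v : E, dd f z v = fderiv ℝ (fderiv ℝ f) z v v := by
    intro v
    unfold dd
    have h1 := second_deriv_comp (f := f) (c := fun t : ℝ => z + (t : ℂ) • v) (c' := fun _ => v)
      (b := 0) (by simpa using hf) (Eventually.of_forall fun t => ?_) (hasDerivAt_const _ _)
    · rw [h1]
      simp
    · have h2 : HasDerivAt (fun t : ℝ => (t : ℂ)) 1 t := Complex.ofRealCLM.hasDerivAt
      simpa using (h2.smul_const v).const_add z
  unfold levi
  rw [h, h]

/-- The Levi form of a function along a holomorphic curve. -/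
theorem levi_curve {f : E → ℝ} {γ : ℂ → E} [CompleteSpace E] (hf : ContDiffAt ℝ 2 f (γ 0))
    (hγ : AnalyticAt ℂ γ 0) : levi (fun t => f (γ t)) 0 1 = levi f (γ 0) (deriv γ 0) := by
  rw [levi_eq_hessian hf]
  have hev : ∀ᶠ t in 𝓝 (0 : ℂ), HasDerivAt γ (deriv γ t) t := by
    filter_upwards [hγ.eventually_analyticAt] with t ht
    exact ht.differentiableAt.hasDerivAt
  have hd2 : HasDerivAt (deriv γ) (deriv (deriv γ) 0) 0 := hγ.deriv.differentiableAt.hasDerivAt
  have key : ∀ v : ℂ, dd (fun t => f (γ t)) 0 v =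
      fderiv ℝ (fderiv ℝ f) (γ 0) (v • deriv γ 0) (v • deriv γ 0) +
        fderiv ℝ f (γ 0) (v • (v • deriv (deriv γ) 0)) := by
    intro v
    unfold dd
    have hline : ∀ t : ℝ, HasDerivAt (fun t : ℝ => (0 : ℂ) + (t : ℂ) • v) v t := by
      intro t
      have h2 : HasDerivAt (fun t : ℝ => (t : ℂ)) 1 t := Complex.ofRealCLM.hasDerivAt
      simpa using (h2.smul_const v).const_add 0
    have hlc : Tendsto (fun t : ℝ => (0 : ℂ) + (t : ℂ) • v) (𝓝 0) (𝓝 0) := by
      have := (hline 0).continuousAt.tendsto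
      simpa using this
    have h1 := second_deriv_comp (f := f) (c := fun t : ℝ => γ (0 + (t : ℂ) • v))
      (c' := fun t : ℝ => v • deriv γ (0 + (t : ℂ) • v)) (b := v • (v • deriv (deriv γ) 0))
      (by simpa using hf) ?_ ?_
    · rw [h1]
      simp
    · filter_upwards [hlc.eventually hev] with t ht
      exact ht.scomp t (hline t)
    · have h3 : HasDerivAt (deriv γ) (deriv (deriv γ) 0) (0 + ((0 : ℝ) : ℂ) • v) := by
        simpa using hd2
      exact (h3.scomp (0 : ℝ) (hline 0)).const_smul v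
  unfold levi
  rw [key, key]
  have e1 : (I • (1 : ℂ)) • ((I • (1 : ℂ)) • deriv (deriv γ) 0) = - deriv (deriv γ) 0 := by
    rw [smul_smul]
    simp
  rw [e1, map_neg]
  simp
  ring

/-- The Levi form and holomorphic maps. -/
theorem levi_comp {F : Type} [NormedAddCommGroup F] [NormedSpace ℂ F] [CompleteSpace F]
    {f : F → ℝ} {g : E → F} {z : E}
    (hf : ContDiffAt ℝ 2 f (g z)) (hg : ∀ᶠ y in 𝓝 z, DifferentiableAt ℂ g y) (ξ : E) :
    levi (fun y => f (g y)) z ξ = levi f (g z) (fderiv ℂ g z ξ) := by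
  set γ : ℂ → F := fun t => g (z + t • ξ) with hγ
  have hlc : Tendsto (fun t : ℂ => z + t • ξ) (𝓝 0) (𝓝 z) := by
    have h1 : Continuous fun t : ℂ => z + t • ξ := by fun_prop
    simpa using h1.tendsto 0
  have hd : ∀ᶠ t in 𝓝 (0 : ℂ), DifferentiableAt ℂ γ t := by
    filter_upwards [hlc.eventually hg] with t ht
    exact ht.comp t (by fun_prop)
  have han : AnalyticAt ℂ γ 0 := by
    obtain ⟨r, hr, hb⟩ := Metric.eventually_nhds_iff_ball.1 hd
    have : DifferentiableOn ℂ γ (Metric.ball 0 r) := fun t ht => (hb t ht).differentiableWithinAt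
    exact this.analyticAt (Metric.ball_mem_nhds 0 hr)
  have hder : deriv γ 0 = fderiv ℂ g z ξ := by
    have h1 : HasFDerivAt g (fderiv ℂ g z) (z + (0 : ℂ) • ξ) := by
      rw [zero_smul, add_zero]
      exact hg.self_of_nhds.hasFDerivAt
    have h2 : HasDerivAt (fun t : ℂ => z + t • ξ) ξ 0 := by
      simpa using ((hasDerivAt_id (0 : ℂ)).smul_const ξ).const_add z
    exact (h1.comp_hasDerivAt (0 : ℂ) h2).deriv
  have h0 : γ 0 = g z := by simp [hγ]
  have h3 := levi_curve (f := f) (γ := γ) (by rw [h0]; exact hf) han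
  rw [h0, hder] at h3
  rw [← h3]
  unfold levi dd
  simp [hγ, smul_smul]

end Pool.Agent.X170.Core
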