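import Pool.Agent.X170.Core.Nuc
import Pool.Agent.X170.PN.Man

/-!
# The complex surface `ℙ¹ × ℂ`
-/

set_option autoImplicit false
set_option linter.unusedVariables false

open Set Topology Filter Complex Manifold
open scoped ContDiff

namespace Pool.Agent.X170.Core.Line

open Pool.Agent.X170.PN

/-- `ℙ¹ × ℂ` -/
def MM : Type := PSpace 1 × ℂ

/-- the model space -/
abbrev EE : Type := (Fin 1 → ℂ) × ℂ

noncomputable instance : TopologicalSpace MM := inferInstanceAs (TopologicalSpace (PSpace 1 × ℂ))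
instance : T2Space MM := inferInstanceAs (T2Space (PSpace 1 × ℂ))
instance : SigmaCompactSpace MM := inferInstanceAs (SigmaCompactSpace (PSpace 1 × ℂ))
instance : ConnectedSpace MM := by
  have := connected (n := 1) le_rfl
  exact inferInstanceAs (ConnectedSpace (PSpace 1 × ℂ))

/-- the charts -/
noncomputable def ch (i : Fin 2) : OpenPartialHomeomorph MM EE :=
  (chart (n := 1) i).prod (OpenPartialHomeomorph.refl ℂ)

theorem ch_source (i : Fin 2) (p : MM) : p ∈ (ch i).source ↔ p.1 ∈ cdom 1 i := by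
  constructor
  · exact fun h => h.1
  · exact fun h => ⟨h, mem_univ _⟩

theorem ch_target (i : Fin 2) : (ch i).target = univ := by
  ext z
  exact ⟨fun _ => mem_univ _, fun _ => ⟨mem_univ _, mem_univ _⟩⟩

theorem ch_apply (i : Fin 2) (p : MM) : ch i p = (cmap i p.1, p.2) := rfl

theorem ch_symm (i : Fin 2) (z : EE) : (ch i).symm z = (cinv i z.1, z.2) := rfl

noncomputable instance : ChartedSpace EE MM where
  atlas := range ch
  chartAt p := ch (exists_idx p.1).choose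
  mem_chart_source p := (ch_source _ _).2 (exists_idx p.1).choose_spec
  chart_mem_atlas p := mem_range_self _

/-- the change of coordinates to the chart 0 -/
noncomputable def TT (i j : Fin 2) (z : EE) : EE := (cmap j (cinv i z.1), z.2)

theorem TT_smooth (i j : Fin 2) {z : EE}
    (hz : (lin i z.1 + Pi.single i 1 : Fin 2 → ℂ) j ≠ 0) : ContDiffAt ℂ ω (TT i j) z := by
  have hA : ∀ m : Fin 2, ContDiff ℂ ω
      (fun w : Fin 1 → ℂ => (lin i w + Pi.single i 1 : Fin 2 → ℂ) m) := by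
    intro m
    exact ((ContinuousLinearMap.proj m).comp (lin i) : (Fin 1 → ℂ) →L[ℂ] ℂ).contDiff.add
      (contDiff_const (c := (Pi.single i 1 : Fin 2 → ℂ) m))
  have h1 : ContDiffAt ℂ ω (fun w : Fin 1 → ℂ => cmap j (cinv i w)) z.1 := by
    rw [contDiffAt_pi]
    intro k
    have h2 : ContDiffAt ℂ ω (fun w : Fin 1 → ℂ =>
        (lin i w + Pi.single i 1 : Fin 2 → ℂ) (j.succAbove k) /
          (lin i w + Pi.single i 1 : Fin 2 → ℂ) j) z.1 := (hA _).contDiffAt.div (hA j).contDiffAt hz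
    refine h2.congr_of_eventuallyEq (Eventually.of_forall fun w => ?_)
    show cmap j (cinv i w) k = _
    rw [trans_apply]
  exact (h1.comp z contDiffAt_fst).prodMk contDiffAt_snd

instance : IsManifold 𝓘(ℂ, EE) ω MM := by
  apply isManifold_of_contDiffOn
  rintro e e' ⟨i, rfl⟩ ⟨j, rfl⟩
  have h1 : (𝓘(ℂ, EE) ∘ (ch i).symm ≫ₕ ch j ∘ 𝓘(ℂ, EE).symm) = TT i j := rfl
  rw [h1]
  intro z hz
  have hz' : (ch i).symm z ∈ (ch j).source := by
    have h2 := hz.1
    simp only [modelWithCornersSelf_coe_symm, preimage_id_eq, id_eq,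
      OpenPartialHomeomorph.trans_source, mem_inter_iff, mem_preimage] at h2
    exact h2.2
  rw [ch_source, ch_symm] at hz'
  exact (TT_smooth i j ((trans_mem i j z.1).1 hz')).contDiffWithinAt

instance : SecondCountableTopology MM := ChartedSpace.secondCountable_of_sigmaCompact EE MM

/-! ### The compact set -/

/-- the point `[1 : 0]` -/
noncomputable def p0 : PSpace 1 := cinv 0 0

/-- `(ℙ¹ × S¹) ∪ ({[1 : 0]} × closed disc)` -/
def KK : Set MM := {p | ‖p.2‖ = 1} ∪ {p | p.1 = p0 ∧ ‖p.2‖ ≤ 1}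

theorem isCompact_KK : IsCompact KK := by
  have h1 : IsCompact ((univ : Set (PSpace 1)) ×ˢ Metric.sphere (0 : ℂ) 1) :=
    isCompact_univ.prod (isCompact_sphere _ _)
  have h2 : IsCompact (({p0} : Set (PSpace 1)) ×ˢ Metric.closedBall (0 : ℂ) 1) :=
    isCompact_singleton.prod (isCompact_closedBall _ _)
  have e : (KK : Set (PSpace 1 × ℂ)) = (univ : Set (PSpace 1)) ×ˢ Metric.sphere (0 : ℂ) 1 ∪
      ({p0} : Set (PSpace 1)) ×ˢ Metric.closedBall (0 : ℂ) 1 := by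
    ext p
    constructor
    · rintro (h | h)
      · exact Or.inl ⟨mem_univ _, mem_sphere_zero_iff_norm.2 h⟩
      · exact Or.inr ⟨h.1, mem_closedBall_zero_iff.2 h.2⟩
    · rintro (h | h)
      · exact Or.inl (mem_sphere_zero_iff_norm.1 h.2)
      · exact Or.inr ⟨h.1, mem_closedBall_zero_iff.1 h.2⟩
  have h3 : IsCompact (KK : Set (PSpace 1 × ℂ)) := by
    rw [e]
    exact h1.union h2
  exact h3

theorem hasDisc_KK : ∀ q ∈ KK, HasDisc EE KK q := by
  intro q hq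
  by_cases h : ‖q.2‖ = 1
  · obtain ⟨i, hi⟩ := exists_idx q.1
    refine ⟨ch i, mem_range_self i, (ch_source i q).2 hi,
      fun t => (cmap i q.1 + fun _ => t, q.2), ?_, ?_, ?_, ?_⟩
    · have h1 : Differentiable ℂ fun t : ℂ => ((cmap i q.1 + fun _ => t, q.2) : EE) := by
        refine Differentiable.prodMk ?_ (differentiable_const _)
        exact (differentiable_const _).add (differentiable_pi.2 fun _ => differentiable_id)
      exact h1.analyticAt 0
    · rw [ch_apply]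
      refine Prod.ext ?_ rfl
      funext k
      simp
    · have h1 : HasDerivAt (fun t : ℂ => ((cmap i q.1 + fun _ => t, q.2) : EE)) (fun _ => 1, 0) 0 := by
        refine HasDerivAt.prodMk ?_ (hasDerivAt_const _ _)
        refine HasDerivAt.const_add _ ?_
        rw [hasDerivAt_pi]
        exact fun _ => hasDerivAt_id _
      rw [h1.deriv]
      intro h2
      have h3 := congrFun (Prod.mk.inj h2).1 0
      exact one_ne_zero h3
    · exact Eventually.of_forall fun t => Or.inl h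
  · have hq' : q.1 = p0 ∧ ‖q.2‖ ≤ 1 := hq.resolve_left h
    have hlt : ‖q.2‖ < 1 := lt_of_le_of_ne hq'.2 h
    refine ⟨ch 0, mem_range_self 0, (ch_source 0 q).2 ?_,
      fun t => (cmap 0 q.1, q.2 + t), ?_, ?_, ?_, ?_⟩
    · rw [hq'.1]; exact cinv_mem 0 0
    · have h1 : Differentiable ℂ fun t : ℂ => ((cmap 0 q.1, q.2 + t) : EE) := by fun_prop
      exact h1.analyticAt 0
    · rw [ch_apply]
      simp
    · have h1 : HasDerivAt (fun t : ℂ => ((cmap 0 q.1, q.2 + t) : EE)) (0, 1) 0 :=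
        HasDerivAt.prodMk (hasDerivAt_const _ _) ((hasDerivAt_id _).const_add _)
      rw [h1.deriv]
      intro h2
      exact one_ne_zero (Prod.mk.inj h2).2
    · have h1 : Tendsto (fun t : ℂ => ‖q.2 + t‖) (𝓝 0) (𝓝 ‖q.2‖) := by
        have : Continuous fun t : ℂ => ‖q.2 + t‖ := by fun_prop
        simpa using this.tendsto 0
      filter_upwards [h1.eventually (gt_mem_nhds hlt)] with t ht
      refine Or.inr ⟨?_, ht.le⟩
      show cinv 0 (cmap 0 q.1) = p0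
      rw [hq'.1]
      exact c_left 0 p0 (cinv_mem 0 0)

/-! ### The function -/

theorem exists_cut : ∃ b : ℂ → ℝ, ContDiff ℝ ∞ b ∧ HasCompactSupport b ∧ (∀ x, 0 ≤ b x) ∧
    (∀ x, ‖x‖ < 1 / 2 → b x = 1) ∧ (∀ x, 3 / 4 < ‖x‖ → b x = 0) := by
  let b : ContDiffBump (0 : ℂ) := ⟨1 / 2, 3 / 4, by norm_num, by norm_num⟩
  refine ⟨b, b.contDiff, b.hasCompactSupport, fun x => b.nonneg, fun x hx => ?_, fun x hx => ?_⟩
  · refine b.one_of_mem_closedBall ?_
    rw [mem_closedBall_zero_iff]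
    exact hx.le
  · refine b.zero_of_le_dist ?_
    rw [dist_zero_right]
    exact hx.le

/-- a smooth cutoff function on `ℂ` -/
noncomputable def bump : ℂ → ℝ := exists_cut.choose

theorem bump_smooth : ContDiff ℝ ∞ bump := exists_cut.choose_spec.1
theorem bump_compact : HasCompactSupport bump := exists_cut.choose_spec.2.1
theorem bump_nonneg (x : ℂ) : 0 ≤ bump x := exists_cut.choose_spec.2.2.1 x
theorem bump_one (x : ℂ) (hx : ‖x‖ < 1 / 2) : bump x = 1 := exists_cut.choose_spec.2.2.2.1 x hx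
theorem bump_zero (x : ℂ) (hx : 3 / 4 < ‖x‖) : bump x = 0 := exists_cut.choose_spec.2.2.2.2 x hx

theorem exists_bound1 : ∃ B : ℝ, 0 ≤ B ∧ ∀ x : ℂ, ‖fderiv ℝ bump x‖ ≤ B := by
  have h1 : Continuous (fderiv ℝ bump) := bump_smooth.continuous_fderiv (by simp)
  obtain ⟨B, hB⟩ := h1.bounded_above_of_compact_support (bump_compact.fderiv (𝕜 := ℝ))
  exact ⟨|B|, abs_nonneg _, fun x => (hB x).trans (le_abs_self B)⟩

/-- the square of the cutoff function -/
noncomputable def kk (x : ℂ) : ℝ := (bump x) ^ 2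

theorem kk_smooth : ContDiff ℝ ∞ kk := bump_smooth.pow 2

theorem kk_compact : HasCompactSupport kk := by
  have : kk = fun x => bump x * bump x := by
    funext x; unfold kk; ring
  rw [this]
  exact bump_compact.mul_right

theorem bound_aux {F : Type*} [NormedAddCommGroup F] {g : ℂ → F} (h1 : Continuous g)
    (h3 : HasCompactSupport g) : ∃ C : ℝ, ∀ x : ℂ, ‖g x‖ ≤ C := h1.bounded_above_of_compact_support h3

theorem hess_bound : ∃ C : ℝ, ∀ x : ℂ, ‖fderiv ℝ (fderiv ℝ kk) x‖ ≤ C := by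
  have hs : ContDiff ℝ 1 (fderiv ℝ kk) :=
    ContDiff.fderiv_right (m := 1) (n := ∞) kk_smooth (by
      have : (1 : WithTop ℕ∞) + 1 = 2 := by norm_num
      rw [this]
      exact two_le)
  have h1 : Continuous (fderiv ℝ (fderiv ℝ kk)) := hs.continuous_fderiv (by simp)
  have h2 : HasCompactSupport (fderiv ℝ kk) := kk_compact.fderiv (𝕜 := ℝ)
  have h3 : HasCompactSupport (fderiv ℝ (fderiv ℝ kk)) := h2.fderiv (𝕜 := ℝ)
  exact bound_aux (F := ℂ →L[ℝ] ℂ →L[ℝ] ℝ) (g := fderiv ℝ (fderiv ℝ kk)) h1 h3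

theorem dd_kk_eq (x v : ℂ) : dd kk x v = fderiv ℝ (fderiv ℝ kk) x v v := by
  unfold dd
  have h1 := second_deriv_comp (f := kk) (c := fun t : ℝ => x + (t : ℂ) • v) (c' := fun _ => v)
    (b := 0) ((kk_smooth.of_le two_le).contDiffAt) (Eventually.of_forall fun t => ?_)
    (hasDerivAt_const _ _)
  · rw [h1]
    simp
  · have h2 : HasDerivAt (fun t : ℝ => (t : ℂ)) 1 t := Complex.ofRealCLM.hasDerivAt
    simpa using (h2.smul_const v).const_add x

theorem exists_bound2 : ∃ C : ℝ, 0 ≤ C ∧ ∀ x v : ℂ, |dd kk x v| ≤ C * ‖v‖ ^ 2 := by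
  obtain ⟨C, hC⟩ := hess_bound
  refine ⟨|C|, abs_nonneg _, fun x v => ?_⟩
  rw [dd_kk_eq, ← Real.norm_eq_abs]
  have h4 := (fderiv ℝ (fderiv ℝ kk) x v).le_opNorm v
  have h3 := (fderiv ℝ (fderiv ℝ kk) x).le_opNorm v
  have h5 := (hC x).trans (le_abs_self C)
  have h6 : ‖fderiv ℝ (fderiv ℝ kk) x v‖ ≤ |C| * ‖v‖ :=
    h3.trans (mul_le_mul_of_nonneg_right h5 (norm_nonneg _))
  have h7 : ‖fderiv ℝ (fderiv ℝ kk) x v‖ * ‖v‖ ≤ |C| * ‖v‖ * ‖v‖ :=
    mul_le_mul_of_nonneg_right h6 (norm_nonneg _)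
  refine (h4.trans h7).trans (le_of_eq ?_)
  ring

/-- the derivative of `kk` -/
theorem hasDerivAt_kk (x v : ℂ) : HasDerivAt (fun t : ℝ => kk (x + (t : ℂ) • v))
    (2 * bump x * fderiv ℝ bump x v) 0 := by
  have h2 : HasDerivAt (fun t : ℝ => x + (t : ℂ) • v) v 0 := by
    have h2 : HasDerivAt (fun t : ℝ => (t : ℂ)) 1 (0 : ℝ) := Complex.ofRealCLM.hasDerivAt
    simpa using (h2.smul_const v).const_add x
  have h3 : HasFDerivAt bump (fderiv ℝ bump x) (x + ((0 : ℝ) : ℂ) • v) := by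
    simp only [ofReal_zero, zero_smul, add_zero]
    exact ((bump_smooth.differentiable (by simp)) x).hasFDerivAt
  have h4 : HasDerivAt (fun t : ℝ => bump (x + (t : ℂ) • v)) (fderiv ℝ bump x v) 0 :=
    h3.comp_hasDerivAt (0 : ℝ) h2
  have h5 := h4.fun_pow 2
  refine h5.congr_deriv ?_
  simp

theorem iteratedDeriv_two_mul {a b : ℝ → ℝ} (ha : ContDiffAt ℝ 2 a 0) (hb : ContDiffAt ℝ 2 b 0) :
    iteratedDeriv 2 (fun t => a t * b t) 0 =
      iteratedDeriv 2 a 0 * b 0 + 2 * (deriv a 0 * deriv b 0) + a 0 * iteratedDeriv 2 b 0 := by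
  have hev : ∀ {f : ℝ → ℝ}, ContDiffAt ℝ 2 f 0 → ∀ᶠ t in 𝓝 0, DifferentiableAt ℝ f t := by
    intro f hf
    filter_upwards [hf.eventually (by simp)] with t ht
    exact ht.differentiableAt (by norm_num)
  have hd : ∀ {f : ℝ → ℝ}, ContDiffAt ℝ 2 f 0 → DifferentiableAt ℝ (deriv f) 0 := by
    intro f hf
    have h1 : DifferentiableAt ℝ (fderiv ℝ f) 0 :=
      (hf.fderiv_right (m := 1) (by norm_num)).differentiableAt (by norm_num)
    have h2 : deriv f = fun t => fderiv ℝ f t 1 := by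
      funext t
      exact fderiv_apply_one_eq_deriv.symm
    rw [h2]
    exact h1.clm_apply (differentiableAt_const 1)
  have ea : iteratedDeriv 2 a 0 = deriv (deriv a) 0 := by
    rw [iteratedDeriv_succ, iteratedDeriv_one]
  have eb : iteratedDeriv 2 b 0 = deriv (deriv b) 0 := by
    rw [iteratedDeriv_succ, iteratedDeriv_one]
  rw [ea, eb]
  refine iteratedDeriv_two_of (g' := fun t => deriv a t * b t + a t * deriv b t) ?_ ?_
  · filter_upwards [hev ha, hev hb] with t h1 h2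
    exact h1.hasDerivAt.mul h2.hasDerivAt
  · have h1 := ((hd ha).hasDerivAt.mul (hev hb).self_of_nhds.hasDerivAt).add
      ((hev ha).self_of_nhds.hasDerivAt.mul (hd hb).hasDerivAt)
    refine h1.congr_deriv ?_
    ring

/-- the function `k(x) |t|²` -/
noncomputable def FF (z : EE) : ℝ := kk z.2 * ‖z.1 0‖ ^ 2

theorem FF_smooth : ContDiff ℝ ∞ FF := by
  have h1 : ContDiff ℝ ∞ (fun z : EE => z.1 0) :=
    (ContinuousLinearMap.proj (R := ℝ) (φ := fun _ : Fin 1 => ℂ) 0).contDiff.comp contDiff_fst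
  exact (kk_smooth.comp contDiff_snd).mul (contDiff_sq.comp h1)

theorem dd_FF (z v : EE) : dd FF z v = dd kk z.2 v.2 * ‖z.1 0‖ ^ 2 +
    2 * ((2 * bump z.2 * fderiv ℝ bump z.2 v.2) *
      (2 * (z.1 0).re * (v.1 0).re + 2 * (z.1 0).im * (v.1 0).im)) + kk z.2 * (2 * ‖v.1 0‖ ^ 2) := by
  have hb : ∀ t, HasDerivAt (fun t : ℝ => ‖z.1 0 + (t : ℂ) • v.1 0‖ ^ 2)
      (2 * ((z.1 0).re + t * (v.1 0).re) * (v.1 0).re +
        2 * ((z.1 0).im + t * (v.1 0).im) * (v.1 0).im) t := by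
    intro t
    have e : (fun t : ℝ => ‖z.1 0 + (t : ℂ) • v.1 0‖ ^ 2) = fun t : ℝ =>
        ((z.1 0).re + t * (v.1 0).re) ^ 2 + ((z.1 0).im + t * (v.1 0).im) ^ 2 := by
      funext t
      exact norm_line _ _ _
    rw [e]
    exact hasDerivAt_q _ _ _ _ _
  have h1 : dd FF z v = iteratedDeriv 2 (fun t : ℝ => kk (z.2 + (t : ℂ) • v.2) *
      ‖z.1 0 + (t : ℂ) • v.1 0‖ ^ 2) 0 := rfl
  rw [h1, iteratedDeriv_two_mul]
  · rw [(hasDerivAt_kk z.2 v.2).deriv, (hb 0).deriv]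
    have h2 : iteratedDeriv 2 (fun t : ℝ => ‖z.1 0 + (t : ℂ) • v.1 0‖ ^ 2) 0 = 2 * ‖v.1 0‖ ^ 2 :=
      dd_sq _ _
    rw [h2]
    unfold dd
    simp
  · exact contDiffAt_line (n := 2) ((kk_smooth.of_le two_le).contDiffAt)
  · exact contDiffAt_line (φ := fun x : ℂ => ‖x‖ ^ 2) (n := 2) ((contDiff_sq.of_le two_le).contDiffAt)

theorem levi_FF_ge {B C : ℝ} (hB : 0 ≤ B) (hB' : ∀ x : ℂ, ‖fderiv ℝ bump x‖ ≤ B)
    (hC : 0 ≤ C) (hC' : ∀ x v : ℂ, |dd kk x v| ≤ C * ‖v‖ ^ 2) (z v : EE) :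
    -((4 * B ^ 2 + C / 2) * ‖z.1 0‖ ^ 2 * ‖v.2‖ ^ 2) ≤ levi FF z v := by
  unfold levi
  rw [dd_FF, dd_FF]
  set t := z.1 0 with ht
  set τ := v.1 0 with hτ
  set ξ := v.2 with hξ
  have e1 : (I • v).2 = I * ξ := rfl
  have e2 : (I • v).1 0 = I * τ := rfl
  rw [e1, e2]
  have n1 : ‖I * ξ‖ = ‖ξ‖ := by rw [norm_mul, norm_I, one_mul]
  have n2 : ‖I * τ‖ = ‖τ‖ := by rw [norm_mul, norm_I, one_mul]
  have k1 := abs_le.1 (hC' z.2 ξ)
  have k2 := abs_le.1 (hC' z.2 (I * ξ))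
  rw [n1] at k2
  have hb0 : 0 ≤ bump z.2 := bump_nonneg _
  have m1 : |fderiv ℝ bump z.2 ξ| ≤ B * ‖ξ‖ := by
    rw [← Real.norm_eq_abs]
    exact ((fderiv ℝ bump z.2).le_opNorm ξ).trans (by gcongr; exact hB' _)
  have m2 : |fderiv ℝ bump z.2 (I * ξ)| ≤ B * ‖ξ‖ := by
    rw [← Real.norm_eq_abs, ← n1]
    exact ((fderiv ℝ bump z.2).le_opNorm (I * ξ)).trans (by gcongr; exact hB' _)
  have hab : ∀ w : ℂ, |2 * t.re * w.re + 2 * t.im * w.im| ≤ 2 * (‖t‖ * ‖w‖) := by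
    intro w
    have h1 : (t.re * w.re + t.im * w.im) ^ 2 ≤ (‖t‖ * ‖w‖) ^ 2 := by
      rw [mul_pow, nsq, nsq]
      nlinarith [sq_nonneg (t.re * w.im - t.im * w.re)]
    have h2 : |t.re * w.re + t.im * w.im| ≤ ‖t‖ * ‖w‖ := abs_le_of_sq_le_sq h1 (by positivity)
    have h3 : 2 * t.re * w.re + 2 * t.im * w.im = 2 * (t.re * w.re + t.im * w.im) := by ring
    rw [h3, abs_mul, abs_two]
    linarith
  have q1 := hab τ
  have q2 := hab (I * τ)
  rw [n2] at q2
  rw [n2]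
  have hprod : ∀ (x y X Y : ℝ), |x| ≤ X → |y| ≤ Y → 0 ≤ X → -(X * Y) ≤ x * y := by
    intro x y X Y hx hy hX
    have : |x * y| ≤ X * Y := by
      rw [abs_mul]
      exact mul_le_mul hx hy (abs_nonneg _) hX
    linarith [neg_abs_le (x * y)]
  have s1 := hprod _ _ _ _ m1 q1 (by positivity)
  have s2 := hprod _ _ _ _ m2 q2 (by positivity)
  have s1' := mul_le_mul_of_nonneg_left s1 hb0
  have s2' := mul_le_mul_of_nonneg_left s2 hb0
  have hsq : 0 ≤ (bump z.2 * ‖τ‖ - 2 * B * ‖ξ‖ * ‖t‖) ^ 2 := sq_nonneg _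
  have hk : kk z.2 = bump z.2 ^ 2 := rfl
  rw [hk]
  have r1 : -(C * ‖ξ‖ ^ 2) * ‖t‖ ^ 2 ≤ dd kk z.2 ξ * ‖t‖ ^ 2 :=
    mul_le_mul_of_nonneg_right k1.1 (by positivity)
  have r2 : -(C * ‖ξ‖ ^ 2) * ‖t‖ ^ 2 ≤ dd kk z.2 (I * ξ) * ‖t‖ ^ 2 :=
    mul_le_mul_of_nonneg_right k2.1 (by positivity)
  nlinarith

end Pool.Agent.X170.Core.Line
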