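import Pool.Agent.X170.Core.Chain
import Pool.Agent.Helper540.Osgood

/-!
# The core and the nucleus of a compact set in a complex surface
-/

set_option autoImplicit false
set_option linter.unusedVariables false

open Set Topology Filter Complex Manifold
open scoped ContDiff

namespace Pool.Agent.X170.Core

section Defs

variable (E : Type) [NormedAddCommGroup E] [NormedSpace ℂ E]
variable {M : Type} [TopologicalSpace M] [ChartedSpace E M]

/-- `φ` is a smooth plurisubharmonic function on the open subset `U` of the complex manifold `M`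
modelled on `E` (checked in all the holomorphic charts of the atlas). -/
structure IsPshOn (U : Set M) (φ : M → ℝ) : Prop where
  smooth : ∀ e ∈ atlas E M, ContDiffOn ℝ ∞ (φ ∘ e.symm) (e.target ∩ e.symm ⁻¹' U)
  psh : ∀ e ∈ atlas E M, ∀ z ∈ e.target ∩ e.symm ⁻¹' U, ∀ ξ : E, 0 ≤ levi (φ ∘ e.symm) z ξ

/-- `φ` is strictly plurisubharmonic at the point `x` of `M`. -/
def IsStrictlyPshAt (φ : M → ℝ) (x : M) : Prop :=
  ∀ e ∈ atlas E M, x ∈ e.source → ∀ ξ : E, ξ ≠ 0 → 0 < levi (φ ∘ e.symm) (e x) ξ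

/-- The core of the compact subset `K` of `M`. -/
def coreOf (K : Set M) : Set M :=
  {x | x ∈ K ∧ ¬ ∃ (U : Set M) (φ : M → ℝ), IsOpen U ∧ K ⊆ U ∧ IsPshOn E U φ ∧ IsStrictlyPshAt E φ x}

/-- The spherical cap `{‖z‖ = 1, Re z₁ ≥ r}` in `ℂ²`. -/
def cap (r : ℝ) : Set (ℂ × ℂ) := {z | ‖z.1‖ ^ 2 + ‖z.2‖ ^ 2 = 1 ∧ r ≤ z.1.re}

/-- The spherical hat `{‖z‖ ≤ 1, Re z₁ ≥ r}` in `ℂ²`. -/
def hat (r : ℝ) : Set (ℂ × ℂ) := {z | ‖z.1‖ ^ 2 + ‖z.2‖ ^ 2 ≤ 1 ∧ r ≤ z.1.re}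

/-- The compact set `K''` arises from the compact set `K'` by a spherical cut (`M` is a complex
surface). -/
def SphericalCut (K' K'' : Set M) : Prop :=
  IsCompact K' ∧ IsCompact K'' ∧ ∃ (r : ℝ) (U : Set (ℂ × ℂ)) (Φ : ℂ × ℂ → M), 0 < r ∧ r < 1 ∧
    IsOpen U ∧ hat r ⊆ U ∧ ContMDiffOn 𝓘(ℂ, ℂ × ℂ) 𝓘(ℂ, E) ω Φ U ∧ InjOn Φ U ∧
    Disjoint (Φ '' cap r) K' ∧ K'' = K' \ Φ '' interior (hat r)

/-- `Cuts E K K'`: the compact set `K'` is obtained from `K` by a finite chain of successive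
spherical cuts. -/
inductive Cuts (K : Set M) : Set M → Prop
  | refl : Cuts K K
  | step {K' K'' : Set M} (h : Cuts K K') (h' : SphericalCut E K' K'') : Cuts K K''

/-- The nucleus of `K`. -/
def nucleus (K : Set M) : Set M := ⋂₀ {K' | Cuts E K K'}

end Defs

theorem levi_hatfun (δ c : ℝ) (z v : ℂ × ℂ) :
    levi (fun z : ℂ × ℂ => z.1.re + (δ * (‖z.1‖ ^ 2 + ‖z.2‖ ^ 2) + c)) z v =
      δ * (‖v.1‖ ^ 2 + ‖v.2‖ ^ 2) := by
  have h : ∀ v : ℂ × ℂ, dd (fun z : ℂ × ℂ => z.1.re + (δ * (‖z.1‖ ^ 2 + ‖z.2‖ ^ 2) + c)) z v =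
      δ * (2 * ‖v.1‖ ^ 2 + 2 * ‖v.2‖ ^ 2) := by
    intro v
    unfold dd
    have e : (fun t : ℝ => (z + (t : ℂ) • v).1.re +
        (δ * (‖(z + (t : ℂ) • v).1‖ ^ 2 + ‖(z + (t : ℂ) • v).2‖ ^ 2) + c)) = fun t : ℝ =>
      (z.1.re + t * v.1.re) + (δ * (((z.1.re + t * v.1.re) ^ 2 + (z.1.im + t * v.1.im) ^ 2) +
        ((z.2.re + t * v.2.re) ^ 2 + (z.2.im + t * v.2.im) ^ 2)) + c) := by
      funext t
      rw [← norm_line, ← norm_line]
      have : (z + (t : ℂ) • v).1.re = z.1.re + t * v.1.re := by simp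
      rw [this]
      rfl
    rw [e]
    refine iteratedDeriv_two_of (g' := fun t => v.1.re + δ *
      ((2 * (z.1.re + t * v.1.re) * v.1.re + 2 * (z.1.im + t * v.1.im) * v.1.im) +
      (2 * (z.2.re + t * v.2.re) * v.2.re + 2 * (z.2.im + t * v.2.im) * v.2.im)))
      (Eventually.of_forall fun t => ?_) ?_
    · exact (hasDerivAt_lin _ _ t).add ((((hasDerivAt_q _ _ _ _ t).add
        (hasDerivAt_q _ _ _ _ t)).const_mul δ).add_const c)
    · refine ((((hasDerivAt_q' z.1.re v.1.re z.1.im v.1.im 0).add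
        (hasDerivAt_q' z.2.re v.2.re z.2.im v.2.im 0)).const_mul δ).const_add (v.1.re)).congr_deriv ?_
      rw [nsq, nsq]
      ring
  unfold levi
  rw [h, h]
  simp only [Prod.smul_fst, Prod.smul_snd, smul_eq_mul, norm_mul, norm_I, one_mul]
  ring

section Pseudoconcave

variable {E : Type} [NormedAddCommGroup E] [NormedSpace ℂ E] [FiniteDimensional ℂ E]
variable {M : Type} [TopologicalSpace M] [T2Space M] [ChartedSpace E M] [IsManifold 𝓘(ℂ, E) ω M]

/-- `K` contains a nonconstant holomorphic disc through `q`. -/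
def HasDisc (E : Type) [NormedAddCommGroup E] [NormedSpace ℂ E] {M : Type} [TopologicalSpace M]
    [ChartedSpace E M] (K : Set M) (q : M) : Prop :=
  ∃ e ∈ atlas E M, q ∈ e.source ∧ ∃ γ : ℂ → E, AnalyticAt ℂ γ 0 ∧ γ 0 = e q ∧ deriv γ 0 ≠ 0 ∧
    ∀ᶠ t in 𝓝 0, e.symm (γ t) ∈ K

theorem continuous_hat : Continuous fun z : ℂ × ℂ => ‖z.1‖ ^ 2 + ‖z.2‖ ^ 2 := by fun_prop

theorem isCompact_hat (r : ℝ) : IsCompact (hat r) := by
  refine Metric.isCompact_of_isClosed_isBounded ?_ ?_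
  · exact (isClosed_le continuous_hat continuous_const).inter
      (isClosed_le continuous_const (Complex.continuous_re.comp continuous_fst))
  · refine Metric.isBounded_closedBall.subset (t := Metric.closedBall (0 : ℂ × ℂ) 1) fun z hz => ?_
    rw [mem_closedBall_zero_iff, Prod.norm_def]
    have h1 := hz.1
    refine max_le ?_ ?_
    · nlinarith [norm_nonneg z.1, sq_nonneg ‖z.2‖]
    · nlinarith [norm_nonneg z.2, sq_nonneg ‖z.1‖]

theorem open_sub_interior {r : ℝ} {z : ℂ × ℂ} (h1 : ‖z.1‖ ^ 2 + ‖z.2‖ ^ 2 < 1) (h2 : r < z.1.re) :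
    z ∈ interior (hat r) := by
  have h3 : {z : ℂ × ℂ | ‖z.1‖ ^ 2 + ‖z.2‖ ^ 2 < 1 ∧ r < z.1.re} ⊆ interior (hat r) :=
    interior_maximal (fun z hz => ⟨hz.1.le, hz.2.le⟩)
      ((isOpen_lt continuous_hat continuous_const).inter
        (isOpen_lt continuous_const (Complex.continuous_re.comp continuous_fst)))
  exact h3 ⟨h1, h2⟩

theorem interior_re {r : ℝ} {z : ℂ × ℂ} (h : z ∈ interior (hat r)) : r < z.1.re := by
  obtain ⟨ε, hε, hb⟩ := Metric.isOpen_iff.1 isOpen_interior z h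
  have h1 : (z.1 - (ε / 2 : ℝ), z.2) ∈ hat r := by
    refine interior_subset (hb ?_)
    rw [Metric.mem_ball, Prod.dist_eq, dist_self, max_eq_left dist_nonneg, dist_eq_norm,
      sub_sub_cancel_left, norm_neg, Complex.norm_real, Real.norm_of_nonneg (by linarith)]
    linarith
  have h2 : r ≤ (z.1 - (ε / 2 : ℝ)).re := h1.2
  rw [Complex.sub_re, Complex.ofReal_re] at h2
  linarith

/-- A compact set with holomorphic discs through all its points is not changed by spherical cuts of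
larger compact sets. -/
theorem subset_of_cut (hE : Module.finrank ℂ E = 2) {K K' K'' : Set M} (hK : IsCompact K)
    (hd : ∀ q ∈ K, HasDisc E K q) (hKK' : K ⊆ K') (h : SphericalCut E K' K'') : K ⊆ K'' := by
  obtain ⟨-, -, r, U, Φ, hr0, hr1, hU, hhU, hΦ, hinj, hdis, rfl⟩ := h
  have hcE : CompleteSpace E := FiniteDimensional.complete ℂ E
  intro x hx
  refine ⟨hKK' hx, ?_⟩
  rintro ⟨z₀, hz₀, hz₀x⟩
  set L : Set (ℂ × ℂ) := {z | z ∈ hat r ∧ Φ z ∈ K} with hL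
  have hΦc : ContinuousOn Φ (hat r) := hΦ.continuousOn.mono hhU
  have hLc : IsCompact L := by
    have h1 : IsClosed L := hΦc.preimage_isClosed_of_isClosed (isCompact_hat r).isClosed hK.isClosed
    exact (isCompact_hat r).of_isClosed_subset h1 fun z hz => hz.1
  have hz₀L : z₀ ∈ L := ⟨interior_subset hz₀, by rw [hz₀x]; exact hx⟩
  set δ : ℝ := (z₀.1.re - r) / 2 with hδ
  have hre := interior_re hz₀
  have hδ0 : 0 < δ := by rw [hδ]; linarith
  set ψ : ℂ × ℂ → ℝ := fun z => z.1.re + (δ * (‖z.1‖ ^ 2 + ‖z.2‖ ^ 2) + -δ) with hψ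
  have hψs : ContDiff ℝ ∞ ψ := by
    have h1 : ContDiff ℝ ∞ (fun z : ℂ × ℂ => z.1.re) := Complex.reCLM.contDiff.comp contDiff_fst
    exact h1.add ((contDiff_const.mul contDiff_sum).add contDiff_const)
  obtain ⟨q, hqL, hmax⟩ := hLc.exists_isMaxOn ⟨z₀, hz₀L⟩ hψs.continuous.continuousOn
  have hψz : r < ψ z₀ := by
    have h1 : 0 ≤ δ * (‖z₀.1‖ ^ 2 + ‖z₀.2‖ ^ 2) := by positivity
    simp only [hψ]
    linarith
  have hψq : r < ψ q := hψz.trans_le (hmax hz₀L)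
  have hq1 : ‖q.1‖ ^ 2 + ‖q.2‖ ^ 2 ≤ 1 := hqL.1.1
  have hqre : r < q.1.re := by
    have h1 : δ * (‖q.1‖ ^ 2 + ‖q.2‖ ^ 2) ≤ δ * 1 := mul_le_mul_of_nonneg_left hq1 hδ0.le
    simp only [hψ] at hψq
    linarith
  have hqlt : ‖q.1‖ ^ 2 + ‖q.2‖ ^ 2 < 1 := by
    refine lt_of_le_of_ne hq1 fun heq => ?_
    exact disjoint_left.1 hdis ⟨q, ⟨heq, hqre.le⟩, rfl⟩ (hKK' hqL.2)
  have hqi : q ∈ interior (hat r) := open_sub_interior hqlt hqre
  have hqU : q ∈ U := hhU hqL.1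
  -- the disc through `Φ q`
  obtain ⟨e, he, hqe, γ, hγ, hγ0, hγ', hγK⟩ := hd (Φ q) hqL.2
  set U1 : Set (ℂ × ℂ) := U ∩ Φ ⁻¹' e.source with hU1
  have hU1o : IsOpen U1 := hΦ.continuousOn.isOpen_inter_preimage hU e.open_source
  have hqU1 : q ∈ U1 := ⟨hqU, hqe⟩
  set f : ℂ × ℂ → E := fun z => e (Φ z) with hf
  have hfs : ContMDiffOn 𝓘(ℂ, ℂ × ℂ) 𝓘(ℂ, E) ω f U1 := by
    have h1 : ContMDiffOn 𝓘(ℂ, E) 𝓘(ℂ, E) ω e e.source :=
      contMDiffOn_of_mem_maximalAtlas (IsManifold.subset_maximalAtlas he)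
    exact h1.comp (hΦ.mono inter_subset_left) fun z hz => hz.2
  have hfc : ContDiffOn ℂ ω f U1 := contMDiffOn_iff_contDiffOn.1 hfs
  have hfd : DifferentiableOn ℂ f U1 := hfc.differentiableOn (by simp)
  have hfinj : InjOn f U1 := fun a ha b hb hab =>
    hinj ha.1 hb.1 (e.injOn ha.2 hb.2 hab)
  have hdim : Module.finrank ℂ (ℂ × ℂ) = Module.finrank ℂ E := by rw [hE]; simp
  have hinjd := Pool.Agent.Helper540.osgood 2 (ℂ × ℂ) E (by simp) hE U1 hU1o f hfd hfinj q hqU1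
  let T : (ℂ × ℂ) ≃ₗ[ℂ] E := LinearEquiv.ofInjectiveOfFinrankEq (fderiv ℂ f q : (ℂ × ℂ) →ₗ[ℂ] E)
    hinjd hdim
  have hT : (T.toContinuousLinearEquiv : (ℂ × ℂ) →L[ℂ] E) = fderiv ℂ f q := by
    ext y <;> rfl
  have hcd : ContDiffAt ℂ ω f q := hfc.contDiffAt (hU1o.mem_nhds hqU1)
  have hfq : HasFDerivAt f (T.toContinuousLinearEquiv : (ℂ × ℂ) →L[ℂ] E) q := by
    rw [hT]
    exact (hcd.differentiableAt (by simp)).hasFDerivAt
  have hn : (ω : WithTop ℕ∞) ≠ 0 := by simp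
  set F := hcd.toOpenPartialHomeomorph f hfq hn with hF
  have hFf : (F : (ℂ × ℂ) → E) = f := rfl
  have hqF : q ∈ F.source := hcd.mem_toOpenPartialHomeomorph_source hfq hn
  set v : ℂ → ℂ × ℂ := fun t => F.symm (γ t) with hv
  have hFq : F.symm (f q) = q := F.left_inv hqF
  have hfqt : f q ∈ F.target := F.map_source hqF
  have hγf : γ 0 = f q := hγ0
  have hinvs : ContDiffAt ℂ ω F.symm (f q) := by
    have h1 : HasFDerivAt F (T.toContinuousLinearEquiv : (ℂ × ℂ) →L[ℂ] E) (F.symm (f q)) := by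
      rw [hFq]; exact hfq
    have h2 : ContDiffAt ℂ ω F (F.symm (f q)) := by
      rw [hFq]; exact hcd
    exact F.contDiffAt_symm hfqt h1 h2
  have hv0 : v 0 = q := by
    rw [hv]; simp only; rw [hγf, hFq]
  have hvan : AnalyticAt ℂ v 0 := by
    have h1 : ContDiffAt ℂ ω (fun t => F.symm (γ t)) 0 := by
      refine ContDiffAt.comp (g := F.symm) 0 ?_ hγ.contDiffAt
      rw [hγf]; exact hinvs
    exact h1.analyticAt
  have hγc : Tendsto γ (𝓝 0) (𝓝 (f q)) := by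
    rw [← hγf]; exact hγ.continuousAt
  have hFv : ∀ᶠ t in 𝓝 (0 : ℂ), f (v t) = γ t := by
    filter_upwards [hγc.eventually (F.open_target.mem_nhds hfqt)] with t ht
    exact F.right_inv ht
  have hv' : deriv v 0 ≠ 0 := by
    intro h0
    have h1 : HasFDerivAt f (T.toContinuousLinearEquiv : (ℂ × ℂ) →L[ℂ] E) (v 0) := by
      rw [hv0]; exact hfq
    have h2 : HasDerivAt (fun t => f (v t)) (T.toContinuousLinearEquiv (deriv v 0)) 0 :=
      h1.comp_hasDerivAt (0 : ℂ) hvan.differentiableAt.hasDerivAt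
    have h3 : deriv γ 0 = T.toContinuousLinearEquiv (deriv v 0) := by
      rw [← h2.deriv]
      exact (Filter.EventuallyEq.deriv_eq hFv).symm
    rw [h0, map_zero] at h3
    exact hγ' h3
  have hvc : Tendsto v (𝓝 0) (𝓝 q) := by
    have := hvan.continuousAt.tendsto
    rwa [hv0] at this
  have hvL : ∀ᶠ t in 𝓝 (0 : ℂ), v t ∈ L := by
    filter_upwards [hvc.eventually (isOpen_interior.mem_nhds hqi), hvc.eventually (hU1o.mem_nhds hqU1),
      hFv, hγK] with t h1 h2 h3 h4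
    refine ⟨interior_subset h1, ?_⟩
    have h5 : e.symm (f (v t)) = Φ (v t) := e.left_inv h2.2
    rw [← h5, h3]
    exact h4
  have hloc : IsLocalMax (fun t => ψ (v t)) 0 := by
    filter_upwards [hvL] with t ht
    rw [hv0]
    exact hmax ht
  have h1 : ContDiffAt ℝ 2 ψ (v 0) := (hψs.of_le two_le).contDiffAt
  have h2 : ContDiffAt ℝ 2 (fun t => ψ (v t)) 0 := by
    have h3 : ContDiffAt ℝ 2 v 0 := by
      have h4 : ContDiffAt ℂ 2 v 0 := hvan.contDiffAt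
      exact h4.restrict_scalars ℝ
    exact ContDiffAt.comp (g := ψ) 0 h1 h3
  have h3 := levi_nonpos_of_isLocalMax h2 hloc 1
  rw [levi_curve h1 hvan, levi_hatfun] at h3
  have h4 : 0 < ‖(deriv v 0).1‖ ^ 2 + ‖(deriv v 0).2‖ ^ 2 := by
    by_cases h5 : (deriv v 0).1 = 0
    · have h6 : (deriv v 0).2 ≠ 0 := fun h6 => hv' (Prod.ext h5 h6)
      have := norm_pos_iff.2 h6
      positivity
    · have := norm_pos_iff.2 h5
      positivity
  have h5 := mul_pos hδ0 h4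
  linarith

theorem nucleus_eq (hE : Module.finrank ℂ E = 2) {K : Set M} (hK : IsCompact K)
    (hd : ∀ q ∈ K, HasDisc E K q) : nucleus E K = K := by
  refine Subset.antisymm (sInter_subset_of_mem Cuts.refl) ?_
  refine subset_sInter fun K' hK' => ?_
  have hK'' : Cuts E K K' := hK'
  induction hK'' with
  | refl => exact Subset.refl _
  | step h h' ih => exact subset_of_cut hE hK hd (ih h) h'

end Pseudoconcave

end Pool.Agent.X170.Core
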